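import Pool.Agent.H55.CU.Targets

/-!
# The first long excursion below the interface, in cells (row CEL of the board `cou_modules`)
-/

set_option autoImplicit false

open MeasureTheory ProbabilityTheory Filter Topology
open Pool.Agent.H95 Pool.Agent.H95.Cop Pool.Agent.H96.Cop Pool.Agent.H55.CU
open scoped ENNReal

namespace Pool.Agent.H68.CU

/-- a sum over times and lengths is at most the sum over the end points -/
private lemma sum_uv (k a e s L L' : ℕ) (hs : e + s < (a + 1) * k) (F : ℕ → ℕ → ℝ≥0∞) :
    ∑ t ∈ Finset.range (s + 1), ∑ m ∈ Finset.Ioc L L', (if t + m ≤ s then F (e + t) (e + t + m)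
      else 0) ≤ ∑ u ∈ Finset.range ((a + 1) * k), ∑ v ∈ Finset.range ((a + 1) * k),
      if e ≤ u ∧ u + L < v ∧ v ≤ u + L' ∧ v ≤ e + s then F u v else 0 := by
  classical
  have hin : ∀ u : ℕ, e ≤ u → ∑ m ∈ Finset.Ioc L L', (if (u - e) + m ≤ s then F u (u + m) else 0) ≤
      ∑ v ∈ Finset.range ((a + 1) * k),
        if e ≤ u ∧ u + L < v ∧ v ≤ u + L' ∧ v ≤ e + s then F u v else 0 := by
    intro u hu
    rw [← Finset.sum_filter, ← Finset.sum_filter]
    have h1 : ∑ m ∈ (Finset.Ioc L L').filter (fun m => (u - e) + m ≤ s), F u (u + m) =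
        ∑ v ∈ ((Finset.Ioc L L').filter (fun m => (u - e) + m ≤ s)).image (fun m => u + m),
          F u v := by
      rw [Finset.sum_image]
      intro m _ m' _ h
      exact Nat.add_left_cancel h
    rw [h1]
    apply Finset.sum_le_sum_of_subset
    intro v hv
    rw [Finset.mem_image] at hv
    obtain ⟨m, hm, rfl⟩ := hv
    rw [Finset.mem_filter, Finset.mem_Ioc] at hm
    rw [Finset.mem_filter, Finset.mem_range]
    omega
  have h2 : ∑ t ∈ Finset.range (s + 1), ∑ m ∈ Finset.Ioc L L', (if t + m ≤ s then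
      F (e + t) (e + t + m) else 0) = ∑ u ∈ (Finset.range (s + 1)).image (fun t => e + t),
      ∑ m ∈ Finset.Ioc L L', (if (u - e) + m ≤ s then F u (u + m) else 0) := by
    rw [Finset.sum_image]
    · apply Finset.sum_congr rfl
      intro t _
      rw [Nat.add_sub_cancel_left]
    · intro t _ t' _ h
      exact Nat.add_left_cancel h
  rw [h2]
  refine le_trans (Finset.sum_le_sum (fun u hu => hin u ?_)) (Finset.sum_le_sum_of_subset ?_)
  · rw [Finset.mem_image] at hu
    obtain ⟨t, _, rfl⟩ := hu
    exact Nat.le_add_right _ _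
  · intro u hu
    rw [Finset.mem_image] at hu
    obtain ⟨t, ht, rfl⟩ := hu
    rw [Finset.mem_range] at ht ⊢
    omega

/-- a sum over the last cell is at most the sum over the number of cells of the excursion -/
private lemma sum_bj (a b J : ℕ) (F : ℕ → ℝ≥0∞) :
    ∑ b' ∈ Finset.range (a + 1), (if b + J ≤ b' ∧ b' ≤ b + 2 * J then F b' else 0) ≤
      ∑ j ∈ Finset.Icc J (2 * J), if b + j ≤ a then F (b + j) else 0 := by
  classical
  rw [← Finset.sum_filter, ← Finset.sum_filter]
  have h1 : ∑ j ∈ (Finset.Icc J (2 * J)).filter (fun j => b + j ≤ a), F (b + j) =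
      ∑ b' ∈ ((Finset.Icc J (2 * J)).filter (fun j => b + j ≤ a)).image (fun j => b + j),
        F b' := by
    rw [Finset.sum_image]
    intro m _ m' _ h
    exact Nat.add_left_cancel h
  rw [h1]
  apply Finset.sum_le_sum_of_subset
  intro b' hb'
  rw [Finset.mem_filter, Finset.mem_range] at hb'
  rw [Finset.mem_image]
  refine ⟨b' - b, ?_, by omega⟩
  rw [Finset.mem_filter, Finset.mem_Icc]
  omega

private lemma reorder (E B : Finset ℕ) (S : ℕ → ℕ → ℕ → ℕ → ℕ → ℕ → ℝ≥0∞) :
    ∑ e ∈ E, ∑ r ∈ E, ∑ b ∈ B, ∑ r' ∈ E, ∑ b' ∈ B, ∑ e' ∈ E, S e r b r' b' e' =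
      ∑ b ∈ B, ∑ b' ∈ B, ∑ e ∈ E, ∑ r' ∈ E, ∑ e' ∈ E, ∑ r ∈ E, S e r b r' b' e' := by
  have h1 : ∀ e, ∑ r ∈ E, ∑ b ∈ B, ∑ r' ∈ E, ∑ b' ∈ B, ∑ e' ∈ E, S e r b r' b' e' =
      ∑ b ∈ B, ∑ b' ∈ B, ∑ r' ∈ E, ∑ e' ∈ E, ∑ r ∈ E, S e r b r' b' e' := by
    intro e
    rw [Finset.sum_comm]
    apply Finset.sum_congr rfl
    intro b _
    have h2 : ∀ r, ∑ r' ∈ E, ∑ b' ∈ B, ∑ e' ∈ E, S e r b r' b' e' =
        ∑ b' ∈ B, ∑ r' ∈ E, ∑ e' ∈ E, S e r b r' b' e' := fun r => Finset.sum_comm
    rw [Finset.sum_congr rfl (fun r _ => h2 r), Finset.sum_comm]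
    apply Finset.sum_congr rfl
    intro b' _
    rw [Finset.sum_comm]
    apply Finset.sum_congr rfl
    intro r' _
    rw [Finset.sum_comm]
  rw [Finset.sum_congr rfl (fun e _ => h1 e), Finset.sum_comm]
  apply Finset.sum_congr rfl
  intro b _
  rw [Finset.sum_comm]

theorem pf_CEL (hDEC : T_DEC) : T_CEL := by
  intro K k J hk hJ g hg a x
  set Lo : ℕ := k * J with hLo
  set Lp : ℕ := k * (2 * J) with hLp
  have hLL : Lo ≤ Lp := Nat.mul_le_mul_left k (by omega)
  -- the summand as a function of the end points of the excursion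
  let F : ℕ → ℕ → ℕ → ℕ → ℝ≥0∞ := fun e r u v =>
    ex 0 e x * (AA K Lo (u - e) (shift e x) * (pk K (v - u) * 2⁻¹ * ex u v x) *
      AA K Lp (a * k + r - v) (shift v x)) * ex (a * k + r) ((a + 1) * k) x
  have hak : (a + 1) * k = a * k + k := by ring
  -- the decomposition for every pair of sites
  have h1 : ∀ e ∈ Finset.range k, ∀ r ∈ Finset.range k, (if e ≤ a * k + r then
      ex 0 e x * AA K Lp (a * k + r - e) (shift e x) * ex (a * k + r) ((a + 1) * k) x else 0) ≤
      (if e ≤ a * k + r then
        ex 0 e x * AA K Lo (a * k + r - e) (shift e x) * ex (a * k + r) ((a + 1) * k) x else 0) +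
      ∑ b ∈ Finset.range (a + 1), ∑ r' ∈ Finset.range k, ∑ b' ∈ Finset.range (a + 1),
        ∑ e' ∈ Finset.range k, (if e ≤ b * k + r' ∧ b * k + r' + Lo < b' * k + e' ∧
          b' * k + e' ≤ b * k + r' + Lp ∧ b' * k + e' ≤ a * k + r then
          F e r (b * k + r') (b' * k + e') else 0) := by
    intro e he r hr
    rw [Finset.mem_range] at he hr
    by_cases hc : e ≤ a * k + r
    · rw [if_pos hc, if_pos hc]
      have h2 := hDEC K Lo Lp hLL (a * k + r - e) (shift e x)
      refine (mul_le_mul_left (mul_le_mul_right h2 _) _).trans ?_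
      rw [mul_add, add_mul]
      refine add_le_add le_rfl ?_
      have h3 : ex 0 e x * (∑ t ∈ Finset.range (a * k + r - e + 1), ∑ m ∈ Finset.Ioc Lo Lp,
          if t + m ≤ a * k + r - e then AA K Lo t (shift e x) *
            (pk K m * 2⁻¹ * ex t (t + m) (shift e x)) *
            AA K Lp (a * k + r - e - t - m) (shift (t + m) (shift e x)) else 0) *
          ex (a * k + r) ((a + 1) * k) x =
          ∑ t ∈ Finset.range (a * k + r - e + 1), ∑ m ∈ Finset.Ioc Lo Lp,
            (if t + m ≤ a * k + r - e then F e r (e + t) (e + t + m) else 0) := by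
        rw [Finset.mul_sum, Finset.sum_mul]
        apply Finset.sum_congr rfl
        intro t _
        rw [Finset.mul_sum, Finset.sum_mul]
        apply Finset.sum_congr rfl
        intro m _
        split_ifs with h
        · simp only [F]
          have e1 : e + t - e = t := by omega
          have e2 : e + t + m - (e + t) = m := by omega
          have e3 : a * k + r - (e + t + m) = a * k + r - e - t - m := by omega
          have e4 : t + e = e + t := by omega
          have e5 : t + m + e = e + t + m := by omega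
          rw [e1, e2, e3, ex_shift, Pool.Agent.H95.shift_shift, e4, e5]
        · rw [mul_zero, zero_mul]
      rw [h3]
      refine (sum_uv k a e (a * k + r - e) Lo Lp (by omega) (F e r)).trans ?_
      rw [sum_cells k (a + 1)]
      apply Finset.sum_le_sum
      intro b _
      apply Finset.sum_le_sum
      intro r' _
      rw [sum_cells k (a + 1)]
      apply Finset.sum_le_sum
      intro b' _
      apply Finset.sum_le_sum
      intro e' _
      have e6 : e + (a * k + r - e) = a * k + r := by omega
      rw [e6]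
    · rw [if_neg hc]
      exact zero_le
  -- the bound of one term
  let P : ℕ → ℕ → ℕ → ℝ≥0∞ := fun b e r' => if e ≤ b * k + r' then
    ex 0 e x * AA K Lo (b * k + r' - e) (shift e x) * ex (b * k + r') ((b + 1) * k) x else 0
  let Q : ℕ → ℕ → ℕ → ℝ≥0∞ := fun b' e' r => if e' ≤ (a - b') * k + r then
    ex 0 e' (shift (b' * k) x) * AA K Lp ((a - b') * k + r - e') (shift e' (shift (b' * k) x)) *
      ex ((a - b') * k + r) ((a - b' + 1) * k) (shift (b' * k) x) else 0
  have hterm : ∀ b b' e r' e' r : ℕ, b' ≤ a → r' < k → e' < k →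
      (if e ≤ b * k + r' ∧ b * k + r' + Lo < b' * k + e' ∧
        b' * k + e' ≤ b * k + r' + Lp ∧ b' * k + e' ≤ a * k + r then
        F e r (b * k + r') (b' * k + e') else 0) ≤
      (if b + J ≤ b' ∧ b' ≤ b + 2 * J then
        P b e r' * (g * ex ((b + 1) * k) (b' * k) x) * Q b' e' r else 0) := by
    intro b b' e r' e' r hb'a hr' he'
    split_ifs with h h'
    · obtain ⟨c1, c2, c3, c4⟩ := h
      have hb'k : (a - b') * k = a * k - b' * k := Nat.sub_mul a b' k
      have hb'a' : b' * k ≤ a * k := Nat.mul_le_mul_right k hb'a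
      have hbb' : (b + 1) * k ≤ b' * k := Nat.mul_le_mul_right k (by omega)
      have hbk : (b + 1) * k = b * k + k := by ring
      have c5 : e' ≤ (a - b') * k + r := by omega
      simp only [F, P, Q]
      rw [if_pos c1, if_pos c5]
      have hgm : pk K (b' * k + e' - (b * k + r')) * 2⁻¹ ≤ g := hg _ (by omega) (by omega)
      have e1 : ex (b * k + r') (b' * k + e') x = ex (b * k + r') ((b + 1) * k) x *
          ex ((b + 1) * k) (b' * k) x * ex 0 e' (shift (b' * k) x) := by
        rw [ex_shift, zero_add, ex_mul x (by omega) hbb', ex_mul x (by omega) (by omega)]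
        congr 1
        omega
      have e2 : AA K Lp (a * k + r - (b' * k + e')) (shift (b' * k + e') x) =
          AA K Lp ((a - b') * k + r - e') (shift e' (shift (b' * k) x)) := by
        rw [Pool.Agent.H95.shift_shift]
        congr 1
        · omega
        · congr 1
          omega
      have e3 : ex (a * k + r) ((a + 1) * k) x =
          ex ((a - b') * k + r) ((a - b' + 1) * k) (shift (b' * k) x) := by
        rw [ex_shift]
        have e4 : (a - b' + 1) * k = (a - b') * k + k := by ring
        congr 1 <;> omega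
      rw [e1, e2, e3]
      calc ex 0 e x * (AA K Lo (b * k + r' - e) (shift e x) *
            (pk K (b' * k + e' - (b * k + r')) * 2⁻¹ * (ex (b * k + r') ((b + 1) * k) x *
              ex ((b + 1) * k) (b' * k) x * ex 0 e' (shift (b' * k) x))) *
            AA K Lp ((a - b') * k + r - e') (shift e' (shift (b' * k) x))) *
            ex ((a - b') * k + r) ((a - b' + 1) * k) (shift (b' * k) x)
          ≤ ex 0 e x * (AA K Lo (b * k + r' - e) (shift e x) *
            (g * (ex (b * k + r') ((b + 1) * k) x *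
              ex ((b + 1) * k) (b' * k) x * ex 0 e' (shift (b' * k) x))) *
            AA K Lp ((a - b') * k + r - e') (shift e' (shift (b' * k) x))) *
            ex ((a - b') * k + r) ((a - b' + 1) * k) (shift (b' * k) x) := by gcongr
        _ = _ := by ring
    · exfalso
      obtain ⟨c1, c2, c3, c4⟩ := h
      apply h'
      constructor
      · by_contra hcon
        have h5 : b' + 1 ≤ b + J := by omega
        have h6 := Nat.mul_le_mul_right k h5
        have e5 : (b' + 1) * k = b' * k + k := by ring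
        have e6 : (b + J) * k = b * k + k * J := by ring
        omega
      · by_contra hcon
        have h5 : b + 2 * J + 1 ≤ b' := by omega
        have h6 := Nat.mul_le_mul_right k h5
        have e5 : (b + 2 * J + 1) * k = b * k + k * (2 * J) + k := by ring
        omega
    · exact zero_le
    · exact le_rfl
  -- assembly
  have hPL : PL K k Lp a x = ∑ e ∈ Finset.range k, ∑ r ∈ Finset.range k,
      (if e ≤ a * k + r then ex 0 e x * AA K Lp (a * k + r - e) (shift e x) *
        ex (a * k + r) ((a + 1) * k) x else 0) := rfl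
  have hPLo : PL K k Lo a x = ∑ e ∈ Finset.range k, ∑ r ∈ Finset.range k,
      (if e ≤ a * k + r then ex 0 e x * AA K Lo (a * k + r - e) (shift e x) *
        ex (a * k + r) ((a + 1) * k) x else 0) := rfl
  rw [hPL, hPLo]
  refine (Finset.sum_le_sum (fun e he => Finset.sum_le_sum (fun r hr => h1 e he r hr))).trans ?_
  have h4 : ∀ e ∈ Finset.range k, ∑ r ∈ Finset.range k, ((if e ≤ a * k + r then
      ex 0 e x * AA K Lo (a * k + r - e) (shift e x) * ex (a * k + r) ((a + 1) * k) x else 0) +
      ∑ b ∈ Finset.range (a + 1), ∑ r' ∈ Finset.range k, ∑ b' ∈ Finset.range (a + 1),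
        ∑ e' ∈ Finset.range k, (if e ≤ b * k + r' ∧ b * k + r' + Lo < b' * k + e' ∧
          b' * k + e' ≤ b * k + r' + Lp ∧ b' * k + e' ≤ a * k + r then
          F e r (b * k + r') (b' * k + e') else 0)) =
      ∑ r ∈ Finset.range k, (if e ≤ a * k + r then
      ex 0 e x * AA K Lo (a * k + r - e) (shift e x) * ex (a * k + r) ((a + 1) * k) x else 0) +
      ∑ r ∈ Finset.range k,
      ∑ b ∈ Finset.range (a + 1), ∑ r' ∈ Finset.range k, ∑ b' ∈ Finset.range (a + 1),
        ∑ e' ∈ Finset.range k, (if e ≤ b * k + r' ∧ b * k + r' + Lo < b' * k + e' ∧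
          b' * k + e' ≤ b * k + r' + Lp ∧ b' * k + e' ≤ a * k + r then
          F e r (b * k + r') (b' * k + e') else 0) := fun e _ => Finset.sum_add_distrib
  rw [Finset.sum_congr rfl h4, Finset.sum_add_distrib]
  refine add_le_add le_rfl ?_
  rw [reorder (Finset.range k) (Finset.range (a + 1)) (fun e r b r' b' e' =>
    if e ≤ b * k + r' ∧ b * k + r' + Lo < b' * k + e' ∧
          b' * k + e' ≤ b * k + r' + Lp ∧ b' * k + e' ≤ a * k + r then
          F e r (b * k + r') (b' * k + e') else 0)]
  apply Finset.sum_le_sum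
  intro b _
  have h5 : ∀ b' ∈ Finset.range (a + 1), ∑ e ∈ Finset.range k, ∑ r' ∈ Finset.range k,
      ∑ e' ∈ Finset.range k, ∑ r ∈ Finset.range k,
        (if e ≤ b * k + r' ∧ b * k + r' + Lo < b' * k + e' ∧
          b' * k + e' ≤ b * k + r' + Lp ∧ b' * k + e' ≤ a * k + r then
          F e r (b * k + r') (b' * k + e') else 0) ≤
      (if b + J ≤ b' ∧ b' ≤ b + 2 * J then PL K k Lo b x * (g * ex ((b + 1) * k) (b' * k) x) *
        PL K k Lp (a - b') (shift (b' * k) x) else 0) := by
    intro b' hb'
    rw [Finset.mem_range] at hb'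
    have h6 : ∑ e ∈ Finset.range k, ∑ r' ∈ Finset.range k,
      ∑ e' ∈ Finset.range k, ∑ r ∈ Finset.range k,
        (if e ≤ b * k + r' ∧ b * k + r' + Lo < b' * k + e' ∧
          b' * k + e' ≤ b * k + r' + Lp ∧ b' * k + e' ≤ a * k + r then
          F e r (b * k + r') (b' * k + e') else 0) ≤
        ∑ e ∈ Finset.range k, ∑ r' ∈ Finset.range k,
      ∑ e' ∈ Finset.range k, ∑ r ∈ Finset.range k,
        (if b + J ≤ b' ∧ b' ≤ b + 2 * J then
        P b e r' * (g * ex ((b + 1) * k) (b' * k) x) * Q b' e' r else 0) := by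
      apply Finset.sum_le_sum
      intro e _
      apply Finset.sum_le_sum
      intro r' hr'
      apply Finset.sum_le_sum
      intro e' he'
      apply Finset.sum_le_sum
      intro r _
      exact hterm b b' e r' e' r (by omega) (Finset.mem_range.mp hr') (Finset.mem_range.mp he')
    refine h6.trans ?_
    split_ifs with h
    · apply le_of_eq
      have hP : PL K k Lo b x = ∑ e ∈ Finset.range k, ∑ r' ∈ Finset.range k, P b e r' := rfl
      have hQ : PL K k Lp (a - b') (shift (b' * k) x) =
          ∑ e' ∈ Finset.range k, ∑ r ∈ Finset.range k, Q b' e' r := rfl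
      rw [hP, hQ]
      rw [Finset.sum_mul, Finset.sum_mul]
      apply Finset.sum_congr rfl
      intro e _
      rw [Finset.sum_mul, Finset.sum_mul]
      apply Finset.sum_congr rfl
      intro r' _
      rw [Finset.mul_sum]
      apply Finset.sum_congr rfl
      intro e' _
      rw [Finset.mul_sum]
    · simp
  refine (Finset.sum_le_sum h5).trans ?_
  refine (sum_bj a b J (fun b' => PL K k Lo b x * (g * ex ((b + 1) * k) (b' * k) x) *
        PL K k Lp (a - b') (shift (b' * k) x))).trans ?_
  apply Finset.sum_le_sum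
  intro j _
  have e7 : a - (b + j) = a - b - j := by omega
  rw [e7]

end Pool.Agent.H68.CU
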