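import Pool.Agent.H55.CU.Targets

/-!
# Measurability and dependence (row MPL of the board `cou_modules`)
-/

set_option autoImplicit false

open MeasureTheory ProbabilityTheory Filter Topology
open Pool.Agent.H95 Pool.Agent.H95.Cop Pool.Agent.H96.Cop Pool.Agent.H55.CU
open scoped ENNReal

namespace Pool.Agent.H68.CU

theorem pf_MPL : T_MPL := by
  intro K k L a
  refine ⟨?_, ?_, ?_, ?_⟩
  · unfold PL
    apply Finset.measurable_sum
    intro e _
    apply Finset.measurable_sum
    intro r _
    split_ifs
    · exact ((measurable_ex 0 e).mul ((measurable_AA K L _).comp (measurable_shift _))).mul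
        (measurable_ex _ _)
    · exact measurable_const
  · unfold PQ
    apply Finset.measurable_sum
    intro e _
    apply Finset.measurable_sum
    intro r _
    split_ifs
    · exact (measurable_ex 0 e).mul ((measurable_AA K L _).comp (measurable_shift _))
    · exact measurable_const
  · intro x x' h
    unfold PL
    apply Finset.sum_congr rfl
    intro e he
    apply Finset.sum_congr rfl
    intro r hr
    rw [Finset.mem_range] at he hr
    have hk : (a + 1) * k = a * k + k := by ring
    by_cases hc : e ≤ a * k + r
    · rw [if_pos hc, if_pos hc]
      rw [(ex_dep 0 e).mono (by omega : e ≤ (a + 1) * k) x x' h, ex_dep _ _ x x' h]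
      congr 2
      apply AA_dep
      intro i hi
      simp only [shift_apply]
      exact h _ (by omega)
    · rw [if_neg hc, if_neg hc]
  · intro x x' h
    unfold PQ
    apply Finset.sum_congr rfl
    intro e he
    apply Finset.sum_congr rfl
    intro r hr
    rw [Finset.mem_range] at he hr
    have hk : (a + 1) * k = a * k + k := by ring
    by_cases hc : e ≤ a * k + r
    · rw [if_pos hc, if_pos hc]
      rw [(ex_dep 0 e).mono (by omega : e ≤ (a + 1) * k) x x' h]
      congr 1
      apply AA_dep
      intro i hi
      simp only [shift_apply]
      exact h _ (by omega)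
    · rw [if_neg hc, if_neg hc]

end Pool.Agent.H68.CU
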